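import Pool.Agent.U26Z.NA.Dens

/-!
# Chowla's conjecture on a whole path from the Liouville function to the constant function `1`

Give every prime `p` an independent threshold `U_p`, uniform on `[0, 1]`, and let `f_t` be the completely
multiplicative function with `f_t(p) = 1` if `U_p < t` and `f_t(p) = -1` otherwise. So `f_0` is the Liouville
function, `f_1 = 1`, and `f_t` is the Liouville function with noise `t`. For one fixed `t` the correlations of
`f_t` are almost surely small. Here this is proved for all `t` in `(0, 1)` simultaneously: there are no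
exceptional noise levels. It holds in all intervals `(x, x + H]` with `H ≥ x ^ ε`, and the values of the
function at the primes `p ≤ x ^ c` may be chosen by an adversary who knows everything. The same is proved for
the times of a general dynamics of the signs.

From the starting files: Mertens' theorem (`Pool.Agent.Erdos456.Mertens`).
-/

set_option autoImplicit false

open Finset Filter Topology MeasureTheory ProbabilityTheory

namespace Pool.Agent.Results.MP_a14ce1_nt.AllNoiseLevels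

/-- the completely multiplicative functions with values `±1` -/
def IsCM (g : ℕ → ℤ) : Prop :=
  g 1 = 1 ∧ (∀ m n, 1 ≤ m → 1 ≤ n → g (m * n) = g m * g n) ∧ ∀ n, 1 ≤ n → g n = 1 ∨ g n = -1

/-- the correlation sum `∑_{x < n ≤ x + H} g(a₁ n + b₁) ⋯ g(a_k n + b_k)` -/
noncomputable def corr (g : ℕ → ℤ) {k : ℕ} (a b : Fin k → ℕ) (x H : ℕ) : ℝ :=
  ∑ n ∈ Ioc x (x + H), ∏ i, (g (a i * n + b i) : ℝ)

/-- the linear forms `a i n + b i` have `a i ≥ 1` and are pairwise not proportional -/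
def Admissible {k : ℕ} (a b : Fin k → ℕ) : Prop :=
  (∀ i, 1 ≤ a i) ∧ ∀ i j, i ≠ j → a i * b j ≠ a j * b i

/-- **Chowla's conjecture for `g`, in all short intervals**: for all `k ≥ 1`, `ε > 0` and admissible forms, for
all large `x` and ALL `H` with `x ^ ε ≤ H ≤ x`, the correlation sum over `(x, x + H]` is at most `ε H`. -/
def ShortChowla (g : ℕ → ℤ) : Prop :=
  ∀ k : ℕ, 1 ≤ k → ∀ ε : ℝ, 0 < ε → ∀ a b : Fin k → ℕ, Admissible a b →
    ∀ᶠ x : ℕ in atTop, ∀ H : ℕ, (x : ℝ) ^ ε ≤ H → H ≤ x → |corr g a b x H| ≤ ε * H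

/-- independent thresholds, uniform on `[0, 1]` -/
structure Thresholds {Ω : Type} [MeasurableSpace Ω] (μ : Measure Ω) (U : ℕ → Ω → ℝ) : Prop where
  meas : ∀ p, Measurable (U p)
  indep : iIndepFun U μ
  law : ∀ p, μ.map (U p) = (volume : Measure ℝ).restrict (Set.Icc 0 1)

/-- a dynamics of random signs: at each time the signs are independent, with probabilities between `d` and
`1 - d`, and the probability that two given signs both change in a time interval `[s, t]` is at most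
`C (t - s) ^ 2` -/
structure Dynamics {Ω : Type} [MeasurableSpace Ω] (μ : Measure Ω) (d C : ℝ) (ξ : ℕ → ℝ → Ω → ℤ) : Prop where
  meas : ∀ p t, Measurable (ξ p t)
  sign : ∀ p t ω, ξ p t ω = 1 ∨ ξ p t ω = -1
  indep : ∀ t, iIndepFun (fun p => ξ p t) μ
  prob : ∀ p t, 0 ≤ t → t ≤ 1 → d ≤ (μ {ω | ξ p t ω = -1}).toReal ∧ (μ {ω | ξ p t ω = -1}).toReal ≤ 1 - d
  jumps : ∀ p q, p ≠ q → ∀ s t, 0 ≤ s → s ≤ t → t ≤ 1 →
    μ {ω | (∃ u ∈ Set.Icc s t, ξ p u ω ≠ ξ p s ω) ∧ ∃ u ∈ Set.Icc s t, ξ q u ω ≠ ξ q s ω} ≤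
      ENNReal.ofReal (C * (t - s) ^ 2)

theorem liou {f : ℕ → ℤ} (hf : IsCM f) (h : ∀ p : ℕ, p.Prime → f p = -1) :
    ∀ n : ℕ, 1 ≤ n → f n = (-1) ^ (ArithmeticFunction.cardFactors n) := by
  intro n
  induction n using Nat.strong_induction_on with
  | _ n ih =>
    intro hn
    rcases Nat.eq_or_lt_of_le hn with h1 | h1
    · rw [← h1, hf.1]; simp
    · have hp := Nat.minFac_prime (show n ≠ 1 by omega)
      obtain ⟨m, hm⟩ := Nat.minFac_dvd n
      have hm0 : 1 ≤ m := by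
        rcases Nat.eq_zero_or_pos m with h2 | h2
        · rw [h2, mul_zero] at hm; omega
        · exact h2
      have hmn : m < n := by
        have h2 := hp.two_le
        have h3 : 2 * m ≤ n.minFac * m := Nat.mul_le_mul_right m h2
        omega
      have h4 : f n = f (n.minFac * m) := by rw [← hm]
      have h5 : ArithmeticFunction.cardFactors n = ArithmeticFunction.cardFactors (n.minFac * m) := by rw [← hm]
      rw [h4, h5, hf.2.1 _ _ hp.one_lt.le hm0, ArithmeticFunction.cardFactors_mul hp.ne_zero (by omega),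
        ArithmeticFunction.cardFactors_apply_prime hp, h _ hp, ih m hmn hm0, pow_add, pow_one]

theorem triv {f : ℕ → ℤ} (hf : IsCM f) (h : ∀ p : ℕ, p.Prime → f p = 1) : ∀ n : ℕ, 1 ≤ n → f n = 1 := by
  intro n
  induction n using Nat.strong_induction_on with
  | _ n ih =>
    intro hn
    rcases Nat.eq_or_lt_of_le hn with h1 | h1
    · rw [← h1, hf.1]
    · have hp := Nat.minFac_prime (show n ≠ 1 by omega)
      obtain ⟨m, hm⟩ := Nat.minFac_dvd n
      have hm0 : 1 ≤ m := by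
        rcases Nat.eq_zero_or_pos m with h2 | h2
        · rw [h2, mul_zero] at hm; omega
        · exact h2
      have hmn : m < n := by
        have h2 := hp.two_le
        have h3 : 2 * m ≤ n.minFac * m := Nat.mul_le_mul_right m h2
        omega
      have h4 : f n = f (n.minFac * m) := by rw [← hm]
      rw [h4, hf.2.1 _ _ hp.one_lt.le hm0, h _ hp, ih m hmn hm0, mul_one]

theorem corr_eq (g : ℕ → ℤ) {k : ℕ} (a b : Fin k → ℕ) (x H : ℕ) :
    corr g a b x H = Pool.Agent.U26Z.NS.ci (fun _ => 1) g a b x H := by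
  unfold corr Pool.Agent.U26Z.NS.ci
  simp only [one_mul]

theorem SC_iff {g : ℕ → ℤ} (h : Pool.Agent.U26Z.NA.SC g) : ShortChowla g := by
  intro k hk ε hε a b hab
  filter_upwards [h k hk ε hε a b hab.1 hab.2] with x hx H h1 h2
  rw [corr_eq]
  exact hx H h1 h2

/-- (1) There are completely multiplicative functions `f_t`, `0 ≤ t ≤ 1`, with values `±1`, from the Liouville function
`f_0` to `f_1 = 1`, such that `f_t(p)` is non-decreasing in `t` at every prime `p` and `f_t(p) = 1` for a proportion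
`t` of the primes, and ALL `f_t` with `0 < t < 1` satisfy Chowla's conjecture in all short intervals.

(2) Let `U_p` be independent thresholds, uniform on `[0, 1]`. Almost surely, for ALL `0 < t < 1`, every completely
multiplicative `g` with values `±1`, and with `g(p) = 1` if `U_p < t` and `g(p) = -1` otherwise for all sufficiently
large primes, satisfies Chowla's conjecture in all short intervals.

(3) For all `k ≥ 1` and `0 < ε ≤ 1` there is `c > 0` such that almost surely, for all large `x`: for all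
`t ∈ [ε, 1 - ε]`, all completely multiplicative `g` with these values at the primes `p > x ^ c` (the values at the
primes `p ≤ x ^ c` are arbitrary), all `H` with `x ^ ε ≤ H ≤ x` and all admissible forms with coefficients at most
`x ^ c`, the correlation sum over `(x, x + H]` is at most `ε H`.

(4) For all `k ≥ 1`, `0 < ε ≤ 1` and `d > 0` there is `c > 0` such that for every dynamics of random signs `ξ_p(t)` with
probabilities between `d` and `1 - d`, almost surely, for all large `N`: for all times `t ∈ [0, 1]`, all completely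
multiplicative `g` with `g(p) = -ξ_p(t)` at all primes `p > N ^ c`, all intervals `(x, x + H]` in `[0, N]` with
`H ≥ N ^ ε` and all admissible forms with coefficients at most `N ^ c`, the correlation sum over `(x, x + H]` is at
most `ε H`. -/
theorem result :
    (∃ f : ℝ → ℕ → ℤ, (∀ t, IsCM (f t)) ∧
      (∀ n : ℕ, 1 ≤ n → f 0 n = (-1) ^ (ArithmeticFunction.cardFactors n) ∧ f 1 n = 1) ∧
      (∀ s t p, s ≤ t → p.Prime → f s p ≤ f t p) ∧
      (∀ t : ℝ, 0 ≤ t → t ≤ 1 → Tendsto (fun n : ℕ =>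
        (((range n).filter (fun j => f t (Nat.nth Nat.Prime j) = 1)).card : ℝ) / n) atTop (𝓝 t)) ∧
      ∀ t : ℝ, 0 < t → t < 1 → ShortChowla (f t)) ∧
    (∀ {Ω : Type} [MeasurableSpace Ω] (μ : Measure Ω) [IsProbabilityMeasure μ] (U : ℕ → Ω → ℝ),
      Thresholds μ U → ∀ᵐ ω ∂μ, ∀ t : ℝ, 0 < t → t < 1 → ∀ g : ℕ → ℤ, IsCM g →
        (∀ᶠ p : ℕ in atTop, p.Prime → g p = if U p ω < t then 1 else -1) → ShortChowla g) ∧
    (∀ k : ℕ, 1 ≤ k → ∀ ε : ℝ, 0 < ε → ε ≤ 1 → ∃ c : ℝ, 0 < c ∧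
      ∀ {Ω : Type} [MeasurableSpace Ω] (μ : Measure Ω) [IsProbabilityMeasure μ] (U : ℕ → Ω → ℝ),
      Thresholds μ U → ∀ᵐ ω ∂μ, ∀ᶠ x : ℕ in atTop, ∀ t : ℝ, ε ≤ t → t ≤ 1 - ε →
        ∀ g : ℕ → ℤ, IsCM g → (∀ p : ℕ, p.Prime → (x : ℝ) ^ c < p → g p = if U p ω < t then 1 else -1) →
        ∀ H : ℕ, (x : ℝ) ^ ε ≤ H → H ≤ x → ∀ a b : Fin k → ℕ, Admissible a b →
        (∀ i, (a i : ℝ) ≤ (x : ℝ) ^ c ∧ (b i : ℝ) ≤ (x : ℝ) ^ c) → |corr g a b x H| ≤ ε * H) ∧
    (∀ k : ℕ, 1 ≤ k → ∀ ε : ℝ, 0 < ε → ε ≤ 1 → ∀ d : ℝ, 0 < d → ∃ c : ℝ, 0 < c ∧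
      ∀ {Ω : Type} [MeasurableSpace Ω] (μ : Measure Ω) [IsProbabilityMeasure μ] (C : ℝ) (ξ : ℕ → ℝ → Ω → ℤ),
      Dynamics μ d C ξ → ∀ᵐ ω ∂μ, ∀ᶠ N : ℕ in atTop, ∀ t : ℝ, 0 ≤ t → t ≤ 1 →
        ∀ g : ℕ → ℤ, IsCM g → (∀ p : ℕ, p.Prime → (N : ℝ) ^ c < p → g p = -ξ p t ω) →
        ∀ x H : ℕ, x + H ≤ N → (N : ℝ) ^ ε ≤ H → ∀ a b : Fin k → ℕ, Admissible a b →
        (∀ i, (a i : ℝ) ≤ (N : ℝ) ^ c ∧ (b i : ℝ) ≤ (N : ℝ) ^ c) → |corr g a b x H| ≤ ε * H) := by
  refine ⟨?_, fun {Ω} _ μ _ U hU => ?_, fun k hk ε hε hε1 => ?_, fun k hk ε hε hε1 d hd => ?_⟩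
  · obtain ⟨f, h1, h2, h3, h4, h5⟩ := Pool.Agent.U26Z.NA.path
    exact ⟨f, h1, fun n hn => ⟨liou (h1 0) (fun p hp => (h2 p hp).1) n hn, triv (h1 1) (fun p hp => (h2 p hp).2) n hn⟩,
      h3, h4, fun t ht0 ht1 => SC_iff (h5 t ht0 ht1)⟩
  · filter_upwards [Pool.Agent.U26Z.NA.all_levels hU.indep hU.meas hU.law] with ω hω t ht0 ht1 g hg hgp
    exact SC_iff (hω t ht0 ht1 g hg hgp)
  · obtain ⟨c, hc, h⟩ := Pool.Agent.U26Z.NA.rob k hk hε hε1
    refine ⟨c, hc, fun {Ω} _ μ _ U hU => ?_⟩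
    filter_upwards [h hU.indep hU.meas hU.law] with ω hω
    filter_upwards [hω] with x hx t ht0 ht1 g hg hgp H h1 h2 a b hab h3
    rw [corr_eq]
    exact hx t ht0 ht1 g hg hgp H h1 h2 a b (fun i => ⟨hab.1 i, (h3 i).1, (h3 i).2⟩) hab.2
  · obtain ⟨c, hc, h⟩ := Pool.Agent.U26Z.NA.as_dyn k hk hd hε hε1
    refine ⟨c, hc, fun {Ω} _ μ _ C ξ hξ => ?_⟩
    filter_upwards [h hξ.indep hξ.meas hξ.sign hξ.prob hξ.jumps] with ω hω
    filter_upwards [hω] with N hN t ht0 ht1 g hg hgp x H h1 h2 a b hab h3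
    rw [corr_eq]
    exact hN t ht0 ht1 g hg hgp x H h1 h2 a b (fun i => ⟨hab.1 i, (h3 i).1, (h3 i).2⟩) hab.2

end Pool.Agent.Results.MP_a14ce1_nt.AllNoiseLevels
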