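import Pool.Agent.HP25.AL.B

/-!
# Products of `k` consecutive values of the Liouville function, for ALL lengths `k` near the multiples `N_j x` of all real
numbers `x > 0` outside a set of Fourier dimension zero

New: the approximation of measures on the line by uniform finite families, and the bound for the moments of these families,
at all scales, in terms of the Fourier transform of the measure (`Pool.Agent.HP25.FD`); the estimate with arbitrary
coefficients for the Liouville function at one shift which is close to a random real number with a bounded moment, with an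
arbitrary power of the logarithm saved (`Pool.Agent.HP25.OS`). From the starting files: the inequality which reduces the
products of consecutive values to the correlations of the Liouville function with arbitrary functions
(`Pool.Agent.TH893.CL.twist_le`).
-/

set_option autoImplicit false

namespace Pool.Agent.Results.MP_a14ce1_nt.FourierDimensionLengths

open Finset Filter Topology MeasureTheory

/-- `ν` is a probability measure on `[0, T]` whose Fourier transform is at most `C |t| ^ (-δ)`. -/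
structure PowerDecay (ν : Measure ℝ) (T : ℕ) (C δ : ℝ) : Prop where
  prob : IsProbabilityMeasure ν
  supp : ν (Set.Icc (0 : ℝ) T)ᶜ = 0
  decay : ∀ t : ℝ, ‖charFun ν t‖ * |t| ^ δ ≤ C

/-- The Liouville function. -/
noncomputable def lam (n : ℕ) : ℝ := (-1) ^ ArithmeticFunction.cardFactors n

/-- The sum over the interval `(Y, X]` of the products of `k` consecutive values of the Liouville function, with the weights
`ξ`. For `ξ = 1` this is `S_k(X) - S_k(Y)`. -/
noncomputable def S (ξ : ℕ → ℂ) (k Y X : ℕ) : ℂ := ∑ n ∈ Ioc Y X, ξ n * ((∏ j ∈ range k, lam (n + j) : ℝ) : ℂ)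

/-- The sums over all the intervals `I ⊆ (0, N]` are at most `|I| / 2 + N / log ^ U N`. -/
def Half (U N : ℕ) (ξ : ℕ → ℂ) (k : ℕ) : Prop :=
  ∀ Y X : ℕ, Y ≤ X → X ≤ N → ‖S ξ k Y X‖ ≤ ((X : ℝ) - Y) / 2 + N / Real.log N ^ U

lemma half_iff (U N : ℕ) (ξ : ℕ → ℂ) (k : ℕ) : Half U N ξ k ↔ Pool.Agent.HP25.AL.LenOK U N ξ k := Iff.rfl

/-- (1) Let `T ≥ 1`, `C`, `δ > 0`, `U` and `W` be fixed, let `N` be large, let `ν` be any probability measure on `[0, T]` whose
Fourier transform is at most `C |t| ^ (-δ)`, and let `ξ` be any weights of absolute value at most `1`. Then for all real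
`x`, with the exception of a set of `ν`-measure at most `1 / log ^ U N`, ALL the lengths `k` with
`|k - N x| ≤ log ^ W N` have the following property: on every interval `I ⊆ (0, N]` the sum of
`ξ(n) λ(n) λ(n + 1) ... λ(n + k - 1)` is at most `|I| / 2 + N / log ^ U N`.

(2) Let `ν` be a probability measure on a bounded interval `[0, T]` whose Fourier transform decays at least as fast as some
power `|t| ^ (-δ)`, `δ > 0`, let `N_j` be natural numbers, `N_j ≥ exp (j ^ c)` for all large `j`, where `c > 0`, and let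
`ξ_j` be any weights of absolute value at most `1` (for example `ξ_j = 1`). Then `ν`-almost every `x` has the following
property: for all `U` and `W`, for all large `j`, ALL the lengths `k` with `|k - N_j x| ≤ log ^ W N_j` have the property in
(1), with `N = N_j` and the weights `ξ_j`. In other words, the set of the exceptional `x > 0` has Fourier dimension zero. -/
theorem result :
    (∀ (T : ℕ) (C δ : ℝ), 1 ≤ T → 0 < δ → ∀ U W : ℕ, ∃ N₀ : ℕ, ∀ N, N₀ ≤ N → ∀ ν : Measure ℝ, PowerDecay ν T C δ →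
      ∀ ξ : ℕ → ℂ, (∀ n, ‖ξ n‖ ≤ 1) →
      ν.real {x | ¬ ∀ k : ℕ, |(k : ℝ) - N * x| ≤ Real.log N ^ W → Half U N ξ k} ≤ 1 / Real.log N ^ U) ∧
    (∀ (T : ℕ) (C δ : ℝ), 1 ≤ T → 0 < δ → ∀ ν : Measure ℝ, PowerDecay ν T C δ → ∀ (N : ℕ → ℕ) (c : ℝ), 0 < c →
      (∀ᶠ j : ℕ in atTop, Real.exp ((j : ℝ) ^ c) ≤ N j) → ∀ ξ : ℕ → ℕ → ℂ, (∀ j n, ‖ξ j n‖ ≤ 1) →
      ∀ᵐ x ∂ν, ∀ U W : ℕ, ∀ᶠ j : ℕ in atTop, ∀ k : ℕ, |(k : ℝ) - N j * x| ≤ Real.log (N j) ^ W → Half U (N j) (ξ j) k) := by
  simp only [half_iff]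
  have key : ∀ (T : ℕ) (C δ : ℝ), 1 ≤ T → 0 < δ → ∀ U W : ℕ, ∃ N₀ : ℕ, ∀ N, N₀ ≤ N → ∀ ν : Measure ℝ, PowerDecay ν T C δ →
      ∀ ξ : ℕ → ℂ, (∀ n, ‖ξ n‖ ≤ 1) →
      ν.real {x | ¬ ∀ k : ℕ, |(k : ℝ) - N * x| ≤ Real.log N ^ W → Pool.Agent.HP25.AL.LenOK U N ξ k} ≤ 1 / Real.log N ^ U := by
    intro T C δ hT hδ U W
    obtain ⟨N₀, h⟩ := Pool.Agent.HP25.AL.len_decay T U W hT C δ hδ
    refine ⟨N₀, fun N hN ν hν ξ hξ => ?_⟩
    have := hν.prob
    exact h N hN ν hν.supp hν.decay ξ hξ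
  refine ⟨key, fun T C δ hT hδ ν hν N c hc hN ξ hξ => ?_⟩
  have := hν.prob
  obtain ⟨N3, hN3⟩ := exists_nat_ge (Real.exp 1)
  have h1 : ∀ U W : ℕ, ∀ᵐ x ∂ν, ∀ᶠ j : ℕ in atTop,
      x ∉ {x | ¬ ∀ k : ℕ, |(k : ℝ) - N j * x| ≤ Real.log (N j) ^ W → Pool.Agent.HP25.AL.LenOK U (N j) (ξ j) k} := by
    intro U W
    apply Pool.Agent.HP25.FD.ae_seq ν N c hc hN
    intro V
    obtain ⟨N₀, h2⟩ := key T C δ hT hδ (max U V) W
    refine ⟨N₀ + N3 + 1, fun j hj => ?_⟩
    have hl : 1 ≤ Real.log (N j) := by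
      rw [Real.le_log_iff_exp_le (by exact_mod_cast (by omega : 0 < N j))]
      exact hN3.trans (by exact_mod_cast (by omega : N3 ≤ N j))
    have h3 := h2 (N j) (by omega) ν hν (ξ j) (hξ j)
    have h4 : ν {x | ¬ ∀ k : ℕ, |(k : ℝ) - N j * x| ≤ Real.log (N j) ^ W → Pool.Agent.HP25.AL.LenOK U (N j) (ξ j) k} ≤
        ν {x | ¬ ∀ k : ℕ, |(k : ℝ) - N j * x| ≤ Real.log (N j) ^ W → Pool.Agent.HP25.AL.LenOK (max U V) (N j) (ξ j) k} := by
      apply measure_mono
      intro x hx hcon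
      exact hx fun k hk => Pool.Agent.HP25.AL.lenOK_mono U (max U V) (N j) (le_max_left _ _) hl (ξ j) k (hcon k hk)
    refine (ENNReal.toReal_mono (measure_lt_top _ _).ne h4).trans (h3.trans ?_)
    exact one_div_le_one_div_of_le (by positivity) (pow_le_pow_right₀ hl (le_max_right _ _))
  have h2 : ∀ᵐ x ∂ν, ∀ U W : ℕ, ∀ᶠ j : ℕ in atTop,
      x ∉ {x | ¬ ∀ k : ℕ, |(k : ℝ) - N j * x| ≤ Real.log (N j) ^ W → Pool.Agent.HP25.AL.LenOK U (N j) (ξ j) k} := by
    rw [ae_all_iff]
    intro U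
    rw [ae_all_iff]
    exact h1 U
  filter_upwards [h2] with x hx U W
  filter_upwards [hx U W] with j hj
  exact not_not.1 hj

end Pool.Agent.Results.MP_a14ce1_nt.FourierDimensionLengths
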