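import Pool.Agent.U26Z.NL.Sm

/-!
# Chowla's conjecture for the Liouville function with noise

`noisyLiouville ξ ω` is the completely multiplicative function with the value `-ξ p ω` at every prime
`p`, where the `ξ p` are independent random signs, `ξ p = -1` with probability `δ p ≤ 1/2`. So it arises
from the Liouville function by changing the sign at each prime `p` independently with probability `δ p`.
The critical amount of noise is `∑ δ p / p`: if this sum diverges then every correlation of order `k ≥ 1`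
tends to `0` in probability, and almost surely all of them tend to `0` under a slightly stronger
condition; if it converges then almost surely Chowla's conjecture of order `k` for
the noisy function is equivalent to the one for the Liouville function itself.

From the starting files: Mertens' theorem (`Pool.Agent.Erdos456.Mertens`) and the prime number theorem
(`Pool.Agent.Cov.PNT`; only that the primes have density zero is used).
-/

set_option autoImplicit false

open Finset Filter Topology MeasureTheory ProbabilityTheory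

namespace Pool.Agent.Results.MP_a14ce1_nt.NoisyLiouville

/-- the Liouville function -/
def liouville (n : ℕ) : ℤ := (-1) ^ ArithmeticFunction.cardFactors n

/-- the completely multiplicative function with the value `-ξ p ω` at every prime `p` -/
def noisyLiouville {Ω : Type} (ξ : ℕ → Ω → ℤ) (ω : Ω) (n : ℕ) : ℤ :=
  n.factorization.prod fun p k => (-ξ p ω) ^ k

/-- the correlation sum `∑_{n ≤ x} f(a₁ n + b₁) ⋯ f(a_k n + b_k)` -/
def corr (f : ℕ → ℤ) {k : ℕ} (a b : Fin k → ℕ) (x : ℕ) : ℤ :=
  ∑ n ∈ Icc 1 x, ∏ i, f (a i * n + b i)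

/-- the linear forms `a i n + b i` have `a i ≥ 1` and are pairwise not proportional -/
def Admissible {k : ℕ} (a b : Fin k → ℕ) : Prop :=
  (∀ i, 1 ≤ a i) ∧ ∀ i j, i ≠ j → a i * b j ≠ a j * b i

/-- Chowla's conjecture of order `k` for `f`: all correlation sums over `k` linear forms which are
pairwise not proportional are `o(x)` -/
def Chowla (f : ℕ → ℤ) (k : ℕ) : Prop := ∀ a b : Fin k → ℕ, Admissible a b →
  Tendsto (fun x : ℕ => ((corr f a b x : ℤ) : ℝ) / x) atTop (𝓝 0)

lemma liou {n : ℕ} (hn : n ≠ 0) : liouville n = Pool.Agent.U26Z.NL.cm (fun _ => -1) n := by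
  unfold liouville Pool.Agent.U26Z.NL.cm
  rw [ArithmeticFunction.cardFactors_eq_sum_factorization, Finsupp.prod, Finsupp.sum,
    Finset.prod_pow_eq_pow_sum]

lemma chowla_liou (k : ℕ) : Chowla liouville k ↔
    Pool.Agent.U26Z.NL.Chowla (Pool.Agent.U26Z.NL.cm (fun _ => -1)) k := by
  unfold Chowla Pool.Agent.U26Z.NL.Chowla
  refine forall_congr' fun a => forall_congr' fun b => forall_congr' fun hab => ?_
  have e : ∀ x, corr liouville a b x =
      Pool.Agent.U26Z.NL.corr (Pool.Agent.U26Z.NL.cm (fun _ => -1)) a b x := by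
    intro x
    unfold corr Pool.Agent.U26Z.NL.corr
    refine Finset.sum_congr rfl fun n hn => Finset.prod_congr rfl fun i _ => ?_
    rw [mem_Icc] at hn
    exact liou (Pool.Agent.U26Z.NL.L_ne hab.1 hn.1 i)
  simp only [e]

/-- Let `ξ p` be independent random signs, `ξ p = -1` with probability `δ p ≤ 1/2`.

(1) If `∑_{Y(x) < p ≤ x} δ p / p → ∞` for some function `Y` with `Y(x) / log log x → ∞`, then almost surely
Chowla's conjecture of every order `k ≥ 1` holds for the noisy Liouville function.

(2) If `∑ δ p / p = ∞` then every correlation of order `k ≥ 1` of the noisy Liouville function tends to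
`0` in probability.

(3) If `∑ δ p / p < ∞` then almost surely, for every `k`, Chowla's conjecture of order `k` for the
noisy Liouville function is equivalent to Chowla's conjecture of order `k` for the Liouville
function. -/
theorem result {Ω : Type} [MeasurableSpace Ω] (μ : Measure Ω) [IsProbabilityMeasure μ]
    (ξ : ℕ → Ω → ℤ) (δ : ℕ → ℝ) (hm : ∀ p, Measurable (ξ p))
    (hξ : ∀ p ω, ξ p ω = 1 ∨ ξ p ω = -1) (hind : iIndepFun ξ μ)
    (hδ : ∀ p, 0 ≤ δ p ∧ δ p ≤ 1 / 2) (hμ : ∀ p, μ {ω | ξ p ω = -1} = ENNReal.ofReal (δ p)) :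
    (∀ Y : ℕ → ℕ, Tendsto (fun x : ℕ => (Y x : ℝ) / Real.log (Real.log x)) atTop atTop →
      Tendsto (fun x : ℕ => ∑ p ∈ (Icc 1 x).filter (fun p => p.Prime ∧ Y x < p), δ p / p) atTop atTop →
      ∀ᵐ ω ∂μ, ∀ k : ℕ, 1 ≤ k → Chowla (noisyLiouville ξ ω) k) ∧
    (¬ Summable (fun p : ℕ => if p.Prime then δ p / p else 0) →
      ∀ k : ℕ, 1 ≤ k → ∀ a b : Fin k → ℕ, Admissible a b → ∀ ε : ℝ, 0 < ε →
        Tendsto (fun x : ℕ => μ {ω | ε * x ≤ |((corr (noisyLiouville ξ ω) a b x : ℤ) : ℝ)|})
          atTop (𝓝 0)) ∧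
    (Summable (fun p : ℕ => if p.Prime then δ p / p else 0) →
      ∀ᵐ ω ∂μ, ∀ k : ℕ, (Chowla (noisyLiouville ξ ω) k ↔ Chowla liouville k)) := by
  have h0 : ∀ p, 0 ≤ δ p := fun p => (hδ p).1
  have h1 : ∀ p, δ p ≤ 1 / 2 := fun p => (hδ p).2
  refine ⟨fun Y hY1 hY2 => ?_, fun hs k hk a b hab ε hε => ?_, fun hs => ?_⟩
  · exact Pool.Agent.U26Z.NL.as_main hind hm hξ h0 h1 hμ hY1 hY2
  · exact Pool.Agent.U26Z.NL.prob_tend hind hm hξ h0 h1 hμ hs hk hab hε
  · filter_upwards [Pool.Agent.U26Z.NL.sm_main hm hξ h0 hμ hs] with ω hω k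
    rw [chowla_liou]
    exact hω k

end Pool.Agent.Results.MP_a14ce1_nt.NoisyLiouville
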