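import Pool.Agent.U26Z.NS.As

/-!
# Chowla's conjecture in all short intervals, for the Liouville function with a fixed amount of noise

`noisyLiouville ξ ω` is the completely multiplicative function with the value `-ξ p ω` at every prime
`p`, where the `ξ p` are independent random signs and `ξ p = -1` with a probability between `d > 0` and
`1/2`. So it arises from the Liouville function by changing the sign at each prime `p` independently
with a probability which may be as small as `d`. Its correlations of every order are small on ALL intervals of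
length `x ^ ε`, also with arbitrary weights: the probability of a large correlation is at most `exp (-N ^ c)`.

From the starting files: Mertens' theorem (`Pool.Agent.Erdos456.Mertens`).
-/

set_option autoImplicit false

open Finset Filter Topology MeasureTheory ProbabilityTheory

namespace Pool.Agent.Results.MP_a14ce1_nt.NoisyShortIntervals

/-- the `ξ p` are independent random signs, and `ξ p = -1` with a probability between `d` and `1/2` -/
structure Noise {Ω : Type} [MeasurableSpace Ω] (μ : Measure Ω) (d : ℝ) (ξ : ℕ → Ω → ℤ) : Prop where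
  meas : ∀ p, Measurable (ξ p)
  sign : ∀ p ω, ξ p ω = 1 ∨ ξ p ω = -1
  indep : iIndepFun ξ μ
  prob : ∀ p, d ≤ (μ {ω | ξ p ω = -1}).toReal ∧ (μ {ω | ξ p ω = -1}).toReal ≤ 1 / 2

/-- the completely multiplicative function with the value `-ξ p ω` at every prime `p` -/
def noisyLiouville {Ω : Type} (ξ : ℕ → Ω → ℤ) (ω : Ω) (n : ℕ) : ℤ :=
  n.factorization.prod fun p k => (-ξ p ω) ^ k

/-- the weighted correlation sum `∑_{x < n ≤ x + H} w(n) f(a₁ n + b₁) ⋯ f(a_k n + b_k)` -/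
noncomputable def corr (w : ℕ → ℝ) (f : ℕ → ℤ) {k : ℕ} (a b : Fin k → ℕ) (x H : ℕ) : ℝ :=
  ∑ n ∈ Ioc x (x + H), w n * ∏ i, (f (a i * n + b i) : ℝ)

/-- the linear forms `a i n + b i` have `a i ≥ 1` and are pairwise not proportional -/
def Admissible {k : ℕ} (a b : Fin k → ℕ) : Prop :=
  (∀ i, 1 ≤ a i) ∧ ∀ i j, i ≠ j → a i * b j ≠ a j * b i

/-- Let `f` be the Liouville function with noise, where the sign at each prime is changed with a probability
between `d > 0` and `1/2`.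

(1) For all `k ≥ 1` and `0 < ε ≤ 1` there are `c > 0` and `N₀`, depending only on `k`, `ε` and `d`, such that for all
`N ≥ N₀`, all intervals `(x, x + H]` in `[0, N]` with `H ≥ N ^ ε`, all weights `|w| ≤ 1` and all admissible
forms with coefficients at most `N ^ c`, the probability of
`|∑_{x < n ≤ x + H} w(n) f(a₁ n + b₁) ⋯ f(a_k n + b_k)| ≥ ε H` is at most `exp (-N ^ c)`.

(2) Almost surely, for all `k ≥ 1`, all admissible forms and all `ε > 0`: for all large `x`,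
`|∑_{x < n ≤ x + H} f(a₁ n + b₁) ⋯ f(a_k n + b_k)| ≤ ε H` for ALL `H` with `x ^ ε ≤ H ≤ x`.

(3) Let for every `N` weights `W N j`, `j < J N`, with values in `[-1, 1]` be given, where `J N ≤ exp (N ^ r)`, and let
`A N ≤ N ^ r`, for every `r > 0` and all large `N`. Then almost surely, for all `k ≥ 1` and `ε > 0`, for all large `N`:
for all `j < J N`, all intervals `(x, x + H]` in `[0, N]` with `H ≥ N ^ ε` and all admissible forms with coefficients
at most `A N`, the sum over the interval of `W N j n * f(a₁ n + b₁) ⋯ f(a_k n + b_k)` is at most `ε H`. -/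
theorem result (d : ℝ) (hd : 0 < d) :
    (∀ k : ℕ, 1 ≤ k → ∀ ε : ℝ, 0 < ε → ε ≤ 1 → ∃ c : ℝ, 0 < c ∧ ∃ N₀ : ℕ, ∀ N : ℕ, N₀ ≤ N →
      ∀ {Ω : Type} [MeasurableSpace Ω] (μ : Measure Ω) [IsProbabilityMeasure μ] (ξ : ℕ → Ω → ℤ),
      Noise μ d ξ → ∀ w : ℕ → ℝ, (∀ n, |w n| ≤ 1) → ∀ x H : ℕ, x + H ≤ N → (N : ℝ) ^ ε ≤ H →
      ∀ a b : Fin k → ℕ, Admissible a b → (∀ i, (a i : ℝ) ≤ (N : ℝ) ^ c ∧ (b i : ℝ) ≤ (N : ℝ) ^ c) →
      (μ {ω | ε * H ≤ |corr w (noisyLiouville ξ ω) a b x H|}).toReal ≤ Real.exp (-((N : ℝ) ^ c))) ∧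
    (∀ {Ω : Type} [MeasurableSpace Ω] (μ : Measure Ω) [IsProbabilityMeasure μ] (ξ : ℕ → Ω → ℤ),
      Noise μ d ξ → ∀ᵐ ω ∂μ, ∀ k : ℕ, 1 ≤ k → ∀ ε : ℝ, 0 < ε → ∀ a b : Fin k → ℕ, Admissible a b →
      ∀ᶠ x : ℕ in atTop, ∀ H : ℕ, (x : ℝ) ^ ε ≤ H → H ≤ x →
        |corr (fun _ => 1) (noisyLiouville ξ ω) a b x H| ≤ ε * H) ∧
    (∀ (J A : ℕ → ℕ) (W : ℕ → ℕ → ℕ → ℝ), (∀ N j n, |W N j n| ≤ 1) →
      (∀ r : ℝ, 0 < r → ∀ᶠ N : ℕ in atTop, (J N : ℝ) ≤ Real.exp ((N : ℝ) ^ r) ∧ (A N : ℝ) ≤ (N : ℝ) ^ r) →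
      ∀ {Ω : Type} [MeasurableSpace Ω] (μ : Measure Ω) [IsProbabilityMeasure μ] (ξ : ℕ → Ω → ℤ),
      Noise μ d ξ → ∀ᵐ ω ∂μ, ∀ k : ℕ, 1 ≤ k → ∀ ε : ℝ, 0 < ε → ∀ᶠ N : ℕ in atTop,
      ∀ j < J N, ∀ x H : ℕ, x + H ≤ N → (N : ℝ) ^ ε ≤ H →
      ∀ a b : Fin k → ℕ, Admissible a b → (∀ i, a i ≤ A N ∧ b i ≤ A N) →
        |corr (W N j) (noisyLiouville ξ ω) a b x H| ≤ ε * H) := by
  have key : ∀ {Ω : Type} [MeasurableSpace Ω] (μ : Measure Ω) [IsProbabilityMeasure μ] (ξ : ℕ → Ω → ℤ),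
      Noise μ d ξ → ∃ δ : ℕ → ℝ, (∀ p, d ≤ δ p) ∧ (∀ p, δ p ≤ 1 / 2) ∧
      ∀ p, μ {ω | ξ p ω = -1} = ENNReal.ofReal (δ p) := by
    intro Ω _ μ _ ξ h
    exact ⟨fun p => (μ {ω | ξ p ω = -1}).toReal, fun p => (h.prob p).1, fun p => (h.prob p).2,
      fun p => (ENNReal.ofReal_toReal (measure_ne_top μ _)).symm⟩
  refine ⟨fun k hk ε hε hε1 => ?_, fun {Ω} _ μ _ ξ hN => ?_, fun J A W hW hJA {Ω} _ μ _ ξ hN => ?_⟩
  · obtain ⟨c, hc, N₀, h⟩ := Pool.Agent.U26Z.NS.prob_tail k hk hd hε hε1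
    refine ⟨c, hc, N₀, fun N hN0 {Ω} _ μ _ ξ hN w hw x H hxH hNH a b hab hc2 => ?_⟩
    obtain ⟨δ, h1, h2, h3⟩ := key μ ξ hN
    have h4 := h N hN0 hN.indep hN.meas hN.sign h1 h2 h3 w hw x H hxH hNH a b
      (fun i => ⟨hab.1 i, (hc2 i).1, (hc2 i).2⟩) hab.2
    have h5 := ENNReal.toReal_mono ENNReal.ofReal_ne_top h4
    rw [ENNReal.toReal_ofReal (Real.exp_pos _).le] at h5
    exact h5
  · obtain ⟨δ, h1, h2, h3⟩ := key μ ξ hN
    filter_upwards [Pool.Agent.U26Z.NS.as_short hN.indep hN.meas hN.sign hd h1 h2 h3] with ω hω k hk ε hε a b hab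
    exact hω k hk ε hε a b hab.1 hab.2
  · obtain ⟨δ, h1, h2, h3⟩ := key μ ξ hN
    filter_upwards [Pool.Agent.U26Z.NS.as_main hN.indep hN.meas hN.sign hd h1 h2 h3 hW
      (fun r hr => (hJA r hr).mono fun N h => h.1) (fun r hr => (hJA r hr).mono fun N h => h.2)]
      with ω hω k hk ε hε
    filter_upwards [hω k hk ε hε] with N hN' j hj x H hxH hNH a b hab hc2
    exact hN' j hj x H hxH hNH a b (fun i => ⟨hab.1 i, (hc2 i).1, (hc2 i).2⟩) hab.2

end Pool.Agent.Results.MP_a14ce1_nt.NoisyShortIntervals
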